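import Pool.Agent.H748R3.HUR.Stmts

set_option autoImplicit false

/-! Task HUR-Rho of project H748-HUR (helper712). -/

namespace Pool.Agent.H712R4.HURRho

open Pool.Agent.H748R3.HUR

/-- the relation x is below y with colour at most n -/
def Le {ι : Type} [LinearOrder ι] (F : ι → ι → ℕ) (n : ℕ) (x y : ι) : Prop :=
  x = y ∨ (x < y ∧ F y x ≤ n)

/-- the invariant -/
def Inv {ι : Type} [LinearOrder ι] (c : ι) (F : ι → ι → ℕ) (d : ι → ℕ) : Prop :=
  (∀ a b, a < b → b < c → d a ≤ max (F b a) (d b)) ∧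
  (∀ a b, a < b → b < c → F b a ≤ max (d a) (d b)) ∧
  (∀ n, {a | a < c ∧ d a ≤ n}.Finite)

theorem step {ι : Type} [LinearOrder ι] (c : ι) (hc : (Set.Iio c).Countable)
    (F : ι → ι → ℕ) (hF : ∀ b < c, Inv b F (F b)) : ∃ d, Inv c F d := by
  classical
  by_cases hne : (Set.Iio c).Nonempty
  swap
  · have hemp : ∀ a, ¬ a < c := fun a ha => hne ⟨a, ha⟩
    refine ⟨fun _ => 0, fun a b _ h => absurd h (hemp b), fun a b _ h => absurd h (hemp b),
      fun n => ?_⟩
    have : {a | a < c ∧ (0:ℕ) ≤ n} = ∅ := by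
      ext a; simp [hemp a]
    rw [this]; exact Set.finite_empty
  obtain ⟨e, he⟩ := hc.exists_eq_range hne
  have hec : ∀ i, e i < c := fun i => by
    have : e i ∈ Set.Iio c := by rw [he]; exact ⟨i, rfl⟩
    exact this
  have hsur : ∀ a < c, ∃ i, e i = a := fun a ha => by
    have : a ∈ Set.range e := by rw [← he]; exact ha
    exact this
  -- the running maximum
  let b : ℕ → ι := fun i => Nat.rec (e 0) (fun k x => max x (e (k+1))) i
  have b0 : b 0 = e 0 := rfl
  have bs : ∀ i, b (i+1) = max (b i) (e (i+1)) := fun i => rfl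
  have hbc : ∀ i, b i < c := by
    intro i
    induction i with
    | zero => rw [b0]; exact hec 0
    | succ k ih => rw [bs]; exact max_lt ih (hec _)
  have hbe : ∀ i, e i ≤ b i := by
    intro i
    cases i with
    | zero => rw [b0]
    | succ k => rw [bs]; exact le_max_right _ _
  have hbm : ∀ i, b i ≤ b (i+1) := fun i => by rw [bs]; exact le_max_left _ _
  let N : ℕ → ℕ := fun i => Nat.rec 0 (fun k x => x + (F (b (k+1)) (b k) + 1)) i
  have N0 : N 0 = 0 := rfl
  have Ns : ∀ i, N (i+1) = N i + (F (b (i+1)) (b i) + 1) := fun i => rfl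
  have hNi : ∀ i, i ≤ N i := by
    intro i
    induction i with
    | zero => exact Nat.zero_le _
    | succ k ih => rw [Ns]; omega
  -- properties of Le
  have trans : ∀ n x y z, z < c → Le F n x y → Le F n y z → Le F n x z := by
    intro n x y z hz hxy hyz
    rcases hxy with rfl | ⟨hxy, h1⟩
    · exact hyz
    · rcases hyz with rfl | ⟨hyz, h2⟩
      · exact Or.inr ⟨hxy, h1⟩
      · exact Or.inr ⟨hxy.trans hyz, ((hF z hz).1 x y hxy hyz).trans (max_le h1 h2)⟩
  have tree : ∀ n x y z, z < c → x < y → Le F n x z → Le F n y z → F y x ≤ n := by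
    intro n x y z hz hxy hxz hyz
    rcases hyz with rfl | ⟨hyz, h2⟩
    · rcases hxz with rfl | ⟨_, h1⟩
      · exact absurd hxy (lt_irrefl _)
      · exact h1
    · rcases hxz with rfl | ⟨_, h1⟩
      · exact absurd (hxy.trans hyz) (lt_irrefl _)
      · exact ((hF z hz).2.1 x y hxy hyz).trans (max_le h1 h2)
  have fin : ∀ n z, z < c → {x | Le F n x z}.Finite := by
    intro n z hz
    refine ((Set.finite_singleton z).union ((hF z hz).2.2 n)).subset ?_
    rintro x (rfl | h)
    · exact Or.inl rfl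
    · exact Or.inr h
  have mono : ∀ n m x y, n ≤ m → Le F n x y → Le F m x y := by
    intro n m x y hnm h
    rcases h with rfl | ⟨h, h1⟩
    · exact Or.inl rfl
    · exact Or.inr ⟨h, h1.trans hnm⟩
  have chain : ∀ n i j, i ≤ j → N j ≤ n → Le F n (b i) (b j) := by
    intro n i j hij
    induction j, hij using Nat.le_induction with
    | base => intro _; exact Or.inl rfl
    | succ j hij ih =>
      intro hN
      have h1 : N j ≤ n := by rw [Ns] at hN; omega
      refine trans n _ (b j) _ (hbc (j+1)) (ih h1) ?_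
      rcases eq_or_lt_of_le (hbm j) with h | h
      · exact Or.inl h
      · refine Or.inr ⟨h, ?_⟩
        rw [Ns] at hN; omega
  let P : ℕ → ι → Prop := fun n a => ∃ i, N i ≤ n ∧ Le F n a (b i)
  have Pmono : ∀ n m a, n ≤ m → P n a → P m a := by
    rintro n m a hnm ⟨i, h1, h2⟩
    exact ⟨i, h1.trans hnm, mono _ _ _ _ hnm h2⟩
  have Pex : ∀ a, a < c → ∃ n, P n a := by
    intro a ha
    obtain ⟨i, rfl⟩ := hsur a ha
    refine ⟨max (N i) (F (b i) (e i)), i, le_max_left _ _, ?_⟩
    rcases eq_or_lt_of_le (hbe i) with h | h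
    · exact Or.inl h
    · exact Or.inr ⟨h, le_max_right _ _⟩
  let d : ι → ℕ := fun a => sInf {n | P n a}
  have dP : ∀ a, a < c → P (d a) a := by
    intro a ha
    exact Nat.sInf_mem (s := {n | P n a}) (Pex a ha)
  have dle : ∀ a n, P n a → d a ≤ n := by
    intro a n hn
    exact Nat.sInf_le hn
  refine ⟨d, ?_, ?_, ?_⟩
  · intro x y hxy hyc
    refine dle _ _ ?_
    obtain ⟨i, h1, h2⟩ := Pmono _ (max (F y x) (d y)) y (le_max_right _ _) (dP y hyc)
    exact ⟨i, h1, trans _ _ y _ (hbc i) (Or.inr ⟨hxy, le_max_left _ _⟩) h2⟩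
  · intro x y hxy hyc
    obtain ⟨i, h1, h2⟩ := Pmono _ (max (d x) (d y)) x (le_max_left _ _) (dP x (hxy.trans hyc))
    obtain ⟨j, h3, h4⟩ := Pmono _ (max (d x) (d y)) y (le_max_right _ _) (dP y hyc)
    rcases le_total i j with hij | hij
    · exact tree _ x y (b j) (hbc j) hxy (trans _ _ _ _ (hbc j) h2 (chain _ _ _ hij h3)) h4
    · exact tree _ x y (b i) (hbc i) hxy h2 (trans _ _ _ _ (hbc i) h4 (chain _ _ _ hij h1))
  · intro n
    have hfin : (⋃ i ∈ Finset.range (n+1), {x | Le F n x (b i)}).Finite :=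
      Set.Finite.biUnion (Finset.finite_toSet _) (fun i _ => fin n (b i) (hbc i))
    refine hfin.subset ?_
    rintro a ⟨hac, hda⟩
    obtain ⟨i, h1, h2⟩ := Pmono _ n a hda (dP a hac)
    simp only [Set.mem_iUnion, Finset.mem_range, Set.mem_ofPred_eq]
    exact ⟨i, by have := hNi i; omega, h2⟩

theorem taskRho' (h : TaskRec) : TaskRho := by
  intro ι _ _ hι
  obtain ⟨F, hF⟩ := h ι (ι → ℕ) (fun a F d => Inv a F d) (by
      rintro a F F' d hFF ⟨h1, h2, h3⟩
      refine ⟨fun x y hxy hya => ?_, fun x y hxy hya => ?_, h3⟩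
      · rw [← hFF y hya]; exact h1 x y hxy hya
      · rw [← hFF y hya]; exact h2 x y hxy hya)
    (fun a F hF => step a (hι a) F hF)
  refine ⟨fun x y => F y x, fun a b c hab hbc => (hF c).1 a b hab hbc,
    fun a b c hab hbc => (hF c).2.1 a b hab hbc, fun b n => (hF b).2.2 n⟩

/-- TaskRec -/
theorem taskRec712 : TaskRec := by
  classical
  intro ι T _ _ _ Q hloc hex
  -- define by well-founded recursion
  let G : (a : ι) → ((b : ι) → b < a → T) → T := fun a f =>
    if h : ∃ d, Q a (fun b => if hb : b < a then f b hb else Classical.arbitrary T) d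
    then h.choose else Classical.arbitrary T
  let F : ι → T := WellFoundedLT.fix (motive := fun _ => T) G
  have hFe : ∀ a, F a = G a (fun b _ => F b) := fun a => WellFoundedLT.fix_eq _ a
  refine ⟨F, fun a => ?_⟩
  induction a using WellFoundedLT.induction with
  | ind a ih =>
    obtain ⟨d, hd⟩ := hex a F ih
    have h : ∃ d, Q a (fun b => if hb : b < a then F b else Classical.arbitrary T) d := by
      refine ⟨d, hloc a F _ d (fun b hb => ?_) hd⟩
      simp [hb]
    have h2 : F a = h.choose := by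
      rw [hFe a]; simp only [G]; exact dif_pos h
    rw [h2]
    refine hloc a _ F _ (fun b hb => ?_) h.choose_spec
    simp [hb]

theorem taskRho : TaskRho := taskRho' taskRec712

end Pool.Agent.H712R4.HURRho
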